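import Pool.Agent.NH4.ZS.Ded
import Pool.Agent.NH4.ZS.Smo
import Pool.Agent.NH4.ZS.Dim
import Pool.Agent.NH4.ZS.Fin
import Pool.Agent.NH4.XH.Fin
import Pool.Agent.NH4.XF.JL

/-!
# MP_666bea_ag, Q1 and Q2 for `r ≤ 1`: arithmetic surfaces, a positive proportion of a family of twists

For a squarefree integer `D < 0` such that `3` splits and `5` is inert in `ℚ(√D)` (`D ≡ 1 mod 3`,
`D ≡ 2, 3 mod 5`, no condition at `2` or at the other primes), and for every `N ≥ 1` divisible by all primes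
that divide `30 D`, let

`X = Spec ℤ[1/N][x, y] / (y² - x³ + 12987 D² x + 263466 D³)`,

the affine model over `ℤ[1/N]` of the quadratic twist by `D` of the elliptic curve `X_0(15)`. It is an integral
scheme of finite type over `ℤ`, smooth over `ℤ`, of dimension `2`.

**Theorem.** If the class group of `ℚ(√D)` has no element of order four, then for all these `N`: `ζ_X` extends to
a meromorphic function on `ℂ` (Q1), and the formula of Q2 is true for all `r ≤ 1`: at `s = 1` (`r = 1`), where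
`CH^1(X, 0) = Pic(X)`, `CH^1(X, 1) = O(X)^*`, `CH^1(X, i) = 0` for `i ≥ 2` (problem file), the order of `ζ_X` is
`-(rank Pic(X) - rank O(X)^*)`; here `Pic(X)` is finite and the order and the rank of `O(X)^*` are the number of
the prime factors of `N`. At `s = 2` (`r = 0`, `CH^0(X, 0) = ℤ`) the order is `-1` and at `s = 3, 4, …`
(`r < 0`) it is `0`. This happens for exactly the proportion `η = ∏ (1 - 2^{-i}) = 0.2887…` of the `D` of this
family, in the order of `|D|`, which is `(5 / 64) η` of ALL squarefree integers.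
-/

set_option autoImplicit false

open Filter Topology AlgebraicGeometry

namespace Pool.Agent.Results.MP_666bea_ag.ArithmeticSurfacesX15

/-- The Euler product `∏ (1 - N(x)^{-s})⁻¹` over the closed points `x` of `X`. -/
noncomputable def eulerProduct (X : Scheme.{0}) (s : ℂ) : ℂ :=
  ∏' x : {x : X // IsClosed ({x} : Set X)}, (1 - ((Nat.card (X.residueField x.1) : ℂ) ^ (-s)))⁻¹

/-- **Q1, and the formula of Q2 for `r ≤ 1`**, for an integral scheme `X = Spec R` of dimension `2`, smooth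
over `ℤ`. The order at `s = 2 - r` is `-∑ (-1)^i rank CH^r(X, i)`: for `r = 1` it is
`-(rank Pic(X) - rank O(X)^*)`, for `r = 0` it is `-1`, for `r < 0` it is `0`. -/
def LowCodim (R : Type) [CommRing R] : Prop :=
  ∃ Z : ℂ → ℂ, MeromorphicOn Z Set.univ ∧
    (∃ σ : ℝ, ∀ s : ℂ, σ < s.re → Z s = eulerProduct (Spec (CommRingCat.of R)) s) ∧
    (∃ p u : ℕ, Module.rank ℤ (Additive (CommRing.Pic R)) = (p : Cardinal) ∧
      Module.rank ℤ (Additive Rˣ) = (u : Cardinal) ∧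
      meromorphicOrderAt Z 1 = ((-((p : ℤ) - u) : ℤ) : WithTop ℤ)) ∧
    meromorphicOrderAt Z 2 = ((-1 : ℤ) : WithTop ℤ) ∧
    ∀ m : ℕ, 2 < m → meromorphicOrderAt Z m = ((0 : ℤ) : WithTop ℤ)

/-- `ℤ[1/N][x, y] / (y² - x³ + 12987 D² x + 263466 D³)`: the coordinate ring over `ℤ[1/N]` of the affine curve
`y² = x³ - 12987 D² x - 263466 D³` (the twist by `D` of `X_0(15)`) -/
abbrev Ring (N : ℕ) (D : ℤ) : Type :=
  WeierstrassCurve.Affine.CoordinateRing
    ({ a₁ := 0, a₂ := 0, a₃ := 0, a₄ := ((-12987 * D ^ 2 : ℤ) : Localization.Away (N : ℤ)),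
       a₆ := ((-263466 * D ^ 3 : ℤ) : Localization.Away (N : ℤ)) } :
      WeierstrassCurve.Affine (Localization.Away (N : ℤ)))

/-- the class of the numbers `D` -/
def InClass (D : ℤ) : Prop := Squarefree D ∧ D < 0 ∧ D % 3 = 1 ∧ (D % 5 = 2 ∨ D % 5 = 3)

/-- `N` is divisible by all primes dividing `30 D` -/
def Adm (N : ℕ) (D : ℤ) : Prop := 0 < N ∧ ∀ p : ℕ, p.Prime → (p : ℤ) ∣ 30 * D → p ∣ N

/-- The class group of the quadratic field `ℚ(√D)` has no element of order four. -/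
def NoFour (D : ℤ) : Prop := ∀ (K : Type) [Field K] [NumberField K], Module.finrank ℚ K = 2 →
  (∃ a : K, a ^ 2 = (D : K)) →
  ∀ c : ClassGroup (NumberField.RingOfIntegers K), c ^ 4 = 1 → c ^ 2 = 1

open Classical in
/-- the number of the squarefree integers `D`, `|D| ≤ X`, with the property `P` -/
noncomputable def count (P : ℤ → Prop) (X : ℕ) : ℝ :=
  (((Finset.Icc (-(X : ℤ)) X).filter fun D : ℤ => Squarefree D ∧ P D).card : ℝ)

/-- the constant `η` -/
noncomputable def eta : ℝ := ∏' i : ℕ, (1 - (1 / 2 : ℝ) ^ (i + 1))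

section proof

open Pool.Agent.NH4 Pool.Agent.NH4.ZS Pool.Agent.XV.T
open Pool.Agent.NH4.XF (cz cz_congr')

theorem disc_eq (D : ℤ) : 4 * (-12987 * D ^ 2) ^ 3 + 27 * (-263466 * D ^ 3) ^ 2 =
    -(2 ^ 8 * 3 ^ 16 * 5 ^ 4) * D ^ 6 := by ring

theorem disc_ne {D : ℤ} (h : D ≠ 0) : 4 * (-12987 * D ^ 2) ^ 3 + 27 * (-263466 * D ^ 3) ^ 2 ≠ 0 := by
  rw [disc_eq]
  exact mul_ne_zero (by norm_num) (pow_ne_zero 6 h)

theorem okN {N : ℕ} {D : ℤ} (hD : D ≠ 0) (h : Adm N D) :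
    OkN N (-12987 * D ^ 2) (-263466 * D ^ 3) := by
  refine ⟨h.1, disc_ne hD, fun p hp hd => h.2 p hp ?_⟩
  rw [disc_eq] at hd
  have hpi : Prime (p : ℤ) := Nat.prime_iff_prime_int.1 hp
  have h2 : (2 : ℤ) ∣ 30 * D := ⟨15 * D, by ring⟩
  have h3 : (3 : ℤ) ∣ 30 * D := ⟨10 * D, by ring⟩
  have h5 : (5 : ℤ) ∣ 30 * D := ⟨6 * D, by ring⟩
  have hDD : D ∣ 30 * D := ⟨30, by ring⟩
  rcases hpi.dvd_or_dvd hd with g | g
  · exact g.trans h2
  rcases hpi.dvd_or_dvd g with g | g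
  · rw [dvd_neg] at g
    rcases hpi.dvd_or_dvd g with g | g
    · rcases hpi.dvd_or_dvd g with g | g
      · exact (hpi.dvd_of_dvd_pow g).trans h2
      · exact (hpi.dvd_of_dvd_pow g).trans h3
    · exact (hpi.dvd_of_dvd_pow g).trans h5
  · exact (hpi.dvd_of_dvd_pow g).trans hDD

theorem zb_of_noFour {D : ℤ} (hD : InClass D) (h : NoFour D) :
    Pool.Agent.Y687.MQ.ZB (-12987 * D ^ 2) (-263466 * D ^ 3) ∧
    Finite (wc ((-12987 * D ^ 2 : ℤ) : ℚ) ((-263466 * D ^ 3 : ℤ) : ℚ)).Point := by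
  have hB : XH.DB D := ⟨hD.2.1, hD.1, hD.2.2⟩
  have hz : RZ D := (XH.rz_noFour hB).2 h
  exact ⟨XH.zb_of XH.f_HOUT hB hz, hz.1⟩

/-- the theorem for one surface -/
theorem one {N : ℕ} {D : ℤ} (hD : InClass D) (h : NoFour D) (hN : Adm N D) :
    LowCodim (Ring N D) ∧ Finite (CommRing.Pic (Ring N D)) ∧
      Module.rank ℤ (Additive (Ring N D)ˣ) = (N.primeFactors.card : Cardinal) := by
  obtain ⟨⟨⟨F, hF, hF1⟩, -⟩, hfin⟩ := zb_of_noFour hD h
  have hN' := okN hD.2.1.ne hN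
  have hF' : IsL (-12987 * D ^ 2) (-263466 * D ^ 3) F := hF
  have hr : analyticOrderAt F 1 = (0 : ℕ) := hF1
  have hpic : Finite (CommRing.Pic (RN N (-12987 * D ^ 2) (-263466 * D ^ 3))) :=
    pic (t_DED t_SEP) hN.1 (disc_ne hD.2.1.ne) hfin
  have hu := units hN.1 (-12987 * D ^ 2) (-263466 * D ^ 3)
  obtain ⟨Z, h1, h2, h3, h4, h5⟩ := one_surface (t_DED t_SEP) hN' hF' hr
  have hpic' : Finite (CommRing.Pic (Ring N D)) := hpic
  refine ⟨⟨Z, h1, h2, ⟨0, N.primeFactors.card, rank_finite _, hu, ?_⟩, h4, h5⟩, hpic, hu⟩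
  rw [h3]
  congr 1
  push_cast
  ring

theorem count_eq (P : ℤ → Prop) (X : ℕ) : count P X = cz P X := rfl

theorem law : Tendsto (fun X : ℕ => count (fun D => InClass D ∧ NoFour D) X / count InClass X) atTop
      (𝓝 eta) ∧
    Tendsto (fun X : ℕ => count (fun D => InClass D ∧ NoFour D) X / count (fun _ => True) X) atTop
      (𝓝 (5 / 64 * eta)) := by
  have hA : XH.IsA 1 := XH.isA_one
  have h1 := XH.joint_zero XG.f_XGDEN XH.f_HOUT (ι := Unit) (g := fun _ => 1) (fun _ => hA)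
    (fun t t' hne => absurd (Subsingleton.elim t t') hne)
  rw [Fintype.card_unit, pow_one] at h1
  have e1 : ∀ X : ℕ, cz (fun M => (M < 0 ∧ M % 3 = 1 ∧ (M % 5 = 2 ∨ M % 5 = 3)) ∧
      ∀ _ : Unit, RZ (M * 1)) X = count (fun D => InClass D ∧ NoFour D) X := by
    refine fun X => cz_congr' (fun M hM => ?_) X
    constructor
    · rintro ⟨h2, h3⟩
      have h4 := h3 ()
      rw [mul_one] at h4
      exact ⟨⟨hM, h2⟩, (XH.rz_noFour ⟨h2.1, hM, h2.2⟩).1 h4⟩
    · rintro ⟨h2, h3⟩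
      refine ⟨h2.2, fun _ => ?_⟩
      rw [mul_one]
      exact (XH.rz_noFour ⟨h2.2.1, hM, h2.2.2⟩).2 h3
  have e2 : ∀ X : ℕ, cz (fun M => M < 0 ∧ M % 3 = 1 ∧ (M % 5 = 2 ∨ M % 5 = 3)) X =
      count InClass X := fun X => cz_congr' (fun M hM => ⟨fun h2 => ⟨hM, h2⟩, fun h2 => h2.2⟩) X
  simp only [e1, e2] at h1
  exact h1

end proof

/-- **Main theorem.** -/
theorem result :
    (∀ (N : ℕ) (D : ℤ), InClass D → Adm N D →
      IsDomain (Ring N D) ∧ Algebra.Smooth ℤ (Ring N D) ∧ ringKrullDim (Ring N D) = 2) ∧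
    (∀ D : ℤ, InClass D → NoFour D → ∀ N : ℕ, Adm N D → LowCodim (Ring N D) ∧
      Finite (CommRing.Pic (Ring N D)) ∧
      Module.rank ℤ (Additive (Ring N D)ˣ) = (N.primeFactors.card : Cardinal)) ∧
    Tendsto (fun X : ℕ => count (fun D => InClass D ∧ NoFour D) X / count InClass X) atTop
      (𝓝 eta) ∧
    Tendsto (fun X : ℕ => count (fun D => InClass D ∧ NoFour D) X / count (fun _ => True) X) atTop
      (𝓝 (5 / 64 * eta)) ∧
    0.2887 < eta ∧ eta < 0.2888 := by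
  refine ⟨fun N D hD hN => ⟨Pool.Agent.NH4.ZS.dom_RN hN.1 _ _,
    Pool.Agent.NH4.ZS.t_SMO N _ _ (okN hD.2.1.ne hN), Pool.Agent.NH4.ZS.t_DIM N _ _ hN.1⟩,
    fun D hD h N hN => one hD h hN, law.1, law.2,
    Pool.Agent.NH5.PR.t_ETA.2.2.2.1, Pool.Agent.NH5.PR.t_ETA.2.2.2.2⟩

end Pool.Agent.Results.MP_666bea_ag.ArithmeticSurfacesX15
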