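import Pool.Agent.NH36.Cz.MainG

/-!
# MP_666bea_ag, Q1: zeta functions of schemes and numbers of conjugacy classes of finite groups

Let `T i j k` (`i < a`, `j < b`, `k < c`) be integers. For every commutative ring `K` the triples
`(v, w, z)` in `K ^ a × K ^ b × K ^ c` form a group `G_T(K)` with the multiplication
`(v, w, z) (v', w', z') = (v + v', w + w', z + z' + T(v, w'))`, `T(v, w')_k = ∑ T i j k v_i w'_j`
(nilpotent of class at most two; the points of a unipotent group scheme over `ℤ`). Let `k(G)` be the number
of the conjugacy classes of a finite group `G` (also the number of its irreducible complex characters).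

**Theorem.** The zeta functions of all schemes of finite type over `ℤ` extend to meromorphic functions
on `ℂ` (Q1 of Bloch and Soulé) if and only if for all `T` the function

`exp (∑_p ∑_{n ≥ 1} k(G_T(𝔽_{p^n})) p^{-ns} / n)`

extends to a meromorphic function on `ℂ`. For Q1 it is sufficient that this is true for the `T` with all
entries equal to `0` or `1` and with at most three entries `T i j k = 1` for every `j`.

For every `N` the zeta functions of all closed subschemes of the affine space of dimension `N` over `ℤ`
extend to meromorphic functions on `ℂ` if and only if the functions above do for all `T` with `c ≤ N + 1`,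
that is, for the groups whose last block has dimension at most `N + 1`.

Proof. The number of the commuting pairs of `G_T(𝔽_q)` is `|G_T(𝔽_q)| k(G_T(𝔽_q))` and it is also, up to a power
of `q`, the number of the points of the scheme `T(v, w') = T(v', w)`; this gives one direction. As a
matrix and its transpose have the same rank, this number is, up to a power of `q`, the number of the
triples `(l, v, v')` such that `v` and `v'` are in the kernel of `l ∘ T`. A system of bilinear equations
`E_m(x, y) = 0` is encoded in a linear family: for `l = (t, x, y)` with `t ≠ 0` the kernel is a line if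
`(x, y)` is a solution and zero otherwise, so the difference of two such numbers is
`(q - 1) (q ^ 2 - 1)` times the number of the solutions. (For closed subschemes of affine spaces: the same
with a linear family for the vector of the monomials of bounded degree.) A function with `Z(s - r) = W(s) Z(s)`, `W`
meromorphic on `ℂ`, `Z` meromorphic in a half-plane, extends to `ℂ`. Every scheme of finite type over `ℤ` is
reduced to systems of bilinear equations with at most three terms
(`Pool.Agent.Q282.UZ.three_iff`, starting file OrdersOfThreeTermSystems).
-/

set_option autoImplicit false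

open CategoryTheory AlgebraicGeometry Pool.Agent.Y116.UV Pool.Agent.NH36.Cz

namespace Pool.Agent.Results.MP_666bea_ag.ConjugacyClasses

/-- The Euler product `∏ (1 - N(x)^{-s})⁻¹` over the closed points `x` of `X`. -/
noncomputable def eulerProduct (X : Scheme.{0}) (s : ℂ) : ℂ :=
  ∏' x : {x : X // IsClosed ({x} : Set X)}, (1 - ((Nat.card (X.residueField x.1) : ℂ) ^ (-s)))⁻¹

/-- The Euler product over the closed points of `X` extends to a meromorphic function on `ℂ` (Q1 for
`X`). -/
def Continues (X : Sch ℤ) : Prop :=
  ∃ F : ℂ → ℂ, MeromorphicOn F Set.univ ∧ ∃ σ : ℝ, ∀ s : ℂ, σ < s.re → F s = eulerProduct X.left s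

/-- `P` is true for all schemes of finite type over `ℤ`. -/
def ForAllSchemes (P : Sch ℤ → Prop) : Prop :=
  ∀ X : Sch ℤ, LocallyOfFiniteType X.hom → QuasiCompact X.hom → P X

/-- `P` is true for the closed subschemes of the affine space of dimension `N` over `ℤ`. -/
def ForClosedSubschemes (N : ℕ) (P : Sch ℤ → Prop) : Prop :=
  ∀ I : Ideal (MvPolynomial (Fin N) ℤ), P (aff ℤ (MvPolynomial (Fin N) ℤ ⧸ I))

/-- All entries of `T` are `0` or `1` and for every `j` there are at most three entries
`T i j k = 1`. -/
def Sparse {a b c : ℕ} (T : Fin a → Fin b → Fin c → ℤ) : Prop :=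
  (∀ i j k, T i j k = 0 ∨ T i j k = 1) ∧
    ∀ j, Set.ncard {x : Fin a × Fin c | T x.1 j x.2 ≠ 0} ≤ 3

/-- **Theorem.** The zeta functions of all schemes of finite type over `ℤ` extend to meromorphic
functions on `ℂ` if and only if the functions `exp (∑_p ∑_{n ≥ 1} k(G_T(𝔽_{p^n})) p^{-ns} / n)` do for all
integral tensors `T`, and if and only if they do for all sparse `T`. For every `N`, those of all closed
subschemes of the affine space of dimension `N` over `ℤ` do if and only if the functions do for all `T` with
`c ≤ N + 1`. -/
theorem result :
    (ForAllSchemes Continues ↔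
      ∀ (a b c : ℕ) (T : Fin a → Fin b → Fin c → ℤ), ClassContinues T) ∧
    (ForAllSchemes Continues ↔
      ∀ (a b c : ℕ) (T : Fin a → Fin b → Fin c → ℤ), Sparse T → ClassContinues T) ∧
    ∀ N : ℕ, ForClosedSubschemes N Continues ↔
      ∀ (a b c : ℕ) (T : Fin a → Fin b → Fin c → ℤ), c ≤ N + 1 → ClassContinues T := by
  have h1 : ForAllSchemes Continues →
      ∀ (a b c : ℕ) (T : Fin a → Fin b → Fin c → ℤ), ClassContinues T := fun h =>
    main.1 fun X hX => h X hX.1 hX.2
  have h2 : (∀ (a b c : ℕ) (T : Fin a → Fin b → Fin c → ℤ), Sparse T → ClassContinues T) →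
      ForAllSchemes Continues := fun h X hX1 hX2 =>
    main.2 (fun a b c T h3 h4 => h a b c T ⟨h3, h4⟩) X ⟨hX1, hX2, fun h => h.elim⟩
  exact ⟨⟨h1, fun h => h2 fun a b c T _ => h a b c T⟩, ⟨fun h a b c T _ => h1 h a b c T, h2⟩,
    fun N => ⟨(main_graded N).1, fun h => (main_graded N).2 fun a b T => h a b (N + 1) T le_rfl⟩⟩

end Pool.Agent.Results.MP_666bea_ag.ConjugacyClasses
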