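import Pool.Agent.NH36.Cz.MainP

/-!
# MP_666bea_ag, Q1: zeta functions of schemes and class numbers of pattern groups

Let `(I, r)` be a finite partially ordered set (`r i j` means `i < j`). For a field `K` the pattern group
`Pat r K` is the group of the invertible matrices `g` with rows and columns indexed by `I` such that `g` and
`g⁻¹` have `1` on the diagonal and otherwise only entries at the places `i < j`. (After a linear extension
of the order these are the subgroups of the unitriangular groups that are given by the vanishing of
entries; for a chain it is the full unitriangular group, where Higman's conjecture says that the class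
number is a polynomial in `q`.) Let `k(G)` be the number of the conjugacy classes (or of the irreducible
complex characters) of the finite group `G`.

**Theorem.** The zeta functions of all schemes of finite type over `ℤ` extend to meromorphic functions
on `ℂ` (Q1 of Bloch and Soulé) if and only if for all finite partially ordered sets the function

`exp (∑_p ∑_{n ≥ 1} k(Pat r 𝔽_{p^n}) p^{-ns} / n)`

extends to a meromorphic function on `ℂ`; for Q1 it is sufficient that this is true for the partially
ordered sets without chains of four elements.

Proof. For a partially ordered set with three levels, where all elements of the lowest level are below all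
elements of the highest level, the class number is, up to a power of `q`, the sum over all matrices `l` of
`q ^ (2 ∑_b e_b(l))`, where `e_b(l)` is the dimension of the kernel of the submatrix of `l` whose columns and
rows are the elements below and above the element `b` of the middle level. Repeating the elements `b`
one gets the numbers of the matrices `l` with prescribed ranks of all submatrices: this is the inversion
of a Vandermonde matrix with the entries `q ^ (2 n e)`, and the division by `q ^ r - 1` is possible as a
function with `Z(s - r) = W(s) Z(s)`, `W` meromorphic on `ℂ`, `Z` meromorphic in a half-plane, extends to `ℂ`.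
The solutions of a system of bilinear equations are encoded by conditions on the ranks of submatrices.
Every scheme of finite type over `ℤ` is reduced to systems of bilinear equations
(`Pool.Agent.Q282.UZ.three_iff`, starting file OrdersOfThreeTermSystems). Conversely the commuting pairs of a
pattern group are the points of a scheme.
-/

set_option autoImplicit false

open CategoryTheory AlgebraicGeometry Pool.Agent.Y116.UV Pool.Agent.NH36.Cz

namespace Pool.Agent.Results.MP_666bea_ag.PatternGroups

/-- The Euler product `∏ (1 - N(x)^{-s})⁻¹` over the closed points `x` of `X`. -/
noncomputable def eulerProduct (X : Scheme.{0}) (s : ℂ) : ℂ :=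
  ∏' x : {x : X // IsClosed ({x} : Set X)}, (1 - ((Nat.card (X.residueField x.1) : ℂ) ^ (-s)))⁻¹

/-- The Euler product over the closed points of `X` extends to a meromorphic function on `ℂ` (Q1 for
`X`). -/
def Continues (X : Sch ℤ) : Prop :=
  ∃ F : ℂ → ℂ, MeromorphicOn F Set.univ ∧ ∃ σ : ℝ, ∀ s : ℂ, σ < s.re → F s = eulerProduct X.left s

/-- `P` is true for all schemes of finite type over `ℤ`. -/
def ForAllSchemes (P : Sch ℤ → Prop) : Prop :=
  ∀ X : Sch ℤ, LocallyOfFiniteType X.hom → QuasiCompact X.hom → P X

/-- **Theorem.** The zeta functions of all schemes of finite type over `ℤ` extend to meromorphic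
functions on `ℂ` if and only if the functions `exp (∑_p ∑_{n ≥ 1} k(Pat r 𝔽_{p^n}) p^{-ns} / n)` do for all
finite partially ordered sets, and if and only if they do for the finite partially ordered sets without
chains of four elements. -/
theorem result :
    (ForAllSchemes Continues ↔
      ∀ (I : Type) [Fintype I] [DecidableEq I] (r : I → I → Prop) [IsStrictOrder I r],
        PatContinues r) ∧
    (ForAllSchemes Continues ↔
      ∀ (I : Type) [Fintype I] [DecidableEq I] (r : I → I → Prop) [IsStrictOrder I r],
        (∀ i j k l, r i j → r j k → ¬ r k l) → PatContinues r) := by
  have h1 : ForAllSchemes Continues →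
      ∀ (I : Type) [Fintype I] [DecidableEq I] (r : I → I → Prop) [IsStrictOrder I r],
        PatContinues r := fun h => main_pat.1 fun X hX => h X hX.1 hX.2
  have h2 : (∀ (I : Type) [Fintype I] [DecidableEq I] (r : I → I → Prop) [IsStrictOrder I r],
      (∀ i j k l, r i j → r j k → ¬ r k l) → PatContinues r) → ForAllSchemes Continues :=
    fun h X hX1 hX2 => main_pat.2 h X ⟨hX1, hX2, fun h => h.elim⟩
  exact ⟨⟨h1, fun h => h2 fun I _ _ r _ _ => h I r⟩, ⟨fun h I _ _ r _ _ => h1 h I r, h2⟩⟩

end Pool.Agent.Results.MP_666bea_ag.PatternGroups
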