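import Pool.Agent.NH36.Zt.Three

/-!
# MP_666bea_ag, Q1 and Q2: smooth affine cubic hypersurfaces over the integers decide everything

For a scheme `X` of finite type over `ℤ` let `eulerProduct X` be the Euler product over the closed points
of `X`, and let `A m k X = CH_m(X, k) ⊗ ℚ` (cycles of dimension `m + k` on `X × Δ^k`; it is
`CH^r(X, k) ⊗ ℚ` with `r = d - m`, `d = dim X`). The hypothesis `IsHigherChow A` of the theorem collects
known properties of these groups (Bloch, Levine): invariance under isomorphisms, localization sequences,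
the products with the multiplicative group, vanishing for `m > dim X`, homotopy invariance for affine
bundles.

A hypersurface `T(x, y, z) = 1`, `T` a form that is linear in each of the three blocks of variables, is
smooth over `ℤ` (Euler's identity). The theorem says that Q1, and Q1 together with Q2, for all schemes of
finite type over `ℤ` is equivalent to the same for the hypersurfaces `∑_{(i, j, k) ∈ H} x_i y_j z_k = 1`
(coefficients `0` and `1`) in which every variable `x_i` occurs in at most three monomials. For every `N`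
the statements for all closed subschemes of the affine space of dimension `N` over `ℤ` are equivalent to
those for all the hypersurfaces `T(x, y, z) = 1` that have at most `N + 1` variables in one of the blocks
(and arbitrarily many in the two others). For `N = 1` the closed subschemes of the affine line are known
cases (Dedekind zeta functions, Hecke; `K`-groups of number rings, Quillen, Borel, Soulé).
-/

set_option autoImplicit false

open CategoryTheory AlgebraicGeometry MvPolynomial Pool.Agent.Y116.UV Pool.Agent.Q282.UZ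
  Pool.Agent.NH36.Zt

universe w

namespace Pool.Agent.Results.MP_666bea_ag.SmoothCubicHypersurfaces

/-- The Euler product `∏ (1 - N(x)^{-s})⁻¹` over the closed points `x` of `X`. -/
noncomputable def eulerProduct (X : Scheme.{0}) (s : ℂ) : ℂ :=
  ∏' x : {x : X // IsClosed ({x} : Set X)}, (1 - ((Nat.card (X.residueField x.1) : ℂ) ^ (-s)))⁻¹

/-- **The assertions of Q1 and Q2 for `X`**: there is a function `F`, meromorphic on `ℂ`, which is equal to
the Euler product of `X` in some half-plane; for all integers `m` the spaces `A m k X`, `k ∈ ℤ`, are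
finite-dimensional and almost all zero (`FinRank`), and the order of `F` at `s = m` is
`-∑ (-1)^k dim A m k X`. -/
def BlochSoule (A : ℤ → ℤ → Sch ℤ → ModuleCat.{w} ℚ) (X : Sch ℤ) : Prop :=
  ∃ F : ℂ → ℂ, MeromorphicOn F Set.univ ∧
    (∃ σ : ℝ, ∀ s : ℂ, σ < s.re → F s = eulerProduct X.left s) ∧
    ∀ m : ℤ, FinRank (A m) X ∧ meromorphicOrderAt F (m : ℂ) =
      ((-∑ᶠ k : ℤ, (k.negOnePow : ℤ) * (Module.finrank ℚ (A m k X) : ℤ) : ℤ) : WithTop ℤ)

/-- The Euler product over the closed points of `X` extends to a meromorphic function on `ℂ` (Q1 for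
`X`). -/
def Continues (X : Sch ℤ) : Prop :=
  ∃ F : ℂ → ℂ, MeromorphicOn F Set.univ ∧ ∃ σ : ℝ, ∀ s : ℂ, σ < s.re → F s = eulerProduct X.left s

/-- `P` is true for all schemes of finite type over `ℤ`. -/
def ForAllSchemes (P : Sch ℤ → Prop) : Prop :=
  ∀ X : Sch ℤ, LocallyOfFiniteType X.hom → QuasiCompact X.hom → P X

/-- The hypersurface `∑ T i j k x_i y_j z_k = 1` in the affine space over `ℤ` with the coordinates
`x_i`, `y_j`, `z_k`. -/
noncomputable def cubic {a b c : ℕ} (T : Fin a → Fin b → Fin c → ℤ) : Sch ℤ :=
  aff ℤ (MvPolynomial (Fin a ⊕ (Fin b ⊕ Fin c)) ℤ ⧸ Ideal.span {∑ i, ∑ j, ∑ k, C (T i j k) *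
    X (Sum.inl i) * X (Sum.inr (Sum.inl j)) * X (Sum.inr (Sum.inr k)) - 1})

/-- The hypersurface `∑_{(i, j, k) ∈ H} x_i y_j z_k = 1` in the affine space over `ℤ`. -/
noncomputable def setCubic {a b c : ℕ} (H : Finset (Fin a × Fin b × Fin c)) : Sch ℤ :=
  aff ℤ (MvPolynomial (Fin a ⊕ (Fin b ⊕ Fin c)) ℤ ⧸ Ideal.span
    {∑ h ∈ H, X (Sum.inl h.1) * X (Sum.inr (Sum.inl h.2.1)) * X (Sum.inr (Sum.inr h.2.2)) -
      (1 : MvPolynomial (Fin a ⊕ (Fin b ⊕ Fin c)) ℤ)})

/-- `P` is true for the hypersurfaces `∑_{(i, j, k) ∈ H} x_i y_j z_k = 1` in which every variable `x_i`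
occurs in at most three monomials. -/
def ForSparseCubics (P : Sch ℤ → Prop) : Prop :=
  ∀ (a b c : ℕ) (H : Finset (Fin a × Fin b × Fin c)),
    (∀ i, (H.filter fun h => h.1 = i).card ≤ 3) → P (setCubic H)

/-- `P` is true for the hypersurfaces `T(x, y, z) = 1` with at most `N` variables in one of the three
blocks. -/
def ForNarrowCubics (N : ℕ) (P : Sch ℤ → Prop) : Prop :=
  ∀ (a b c : ℕ) (T : Fin a → Fin b → Fin c → ℤ), (a ≤ N ∨ b ≤ N ∨ c ≤ N) → P (cubic T)

/-- `P` is true for the closed subschemes of the affine space of dimension `N` over `ℤ`. -/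
def ForClosedSubschemes (N : ℕ) (P : Sch ℤ → Prop) : Prop :=
  ∀ I : Ideal (MvPolynomial (Fin N) ℤ), P (aff ℤ (MvPolynomial (Fin N) ℤ ⧸ I))

/-- **Theorem.** (1) All the hypersurfaces `T(x, y, z) = 1` are smooth over `ℤ`. (2) The zeta functions of
all schemes of finite type over `ℤ` extend to meromorphic functions on `ℂ` (Q1) if and only if those of
the sparse hypersurfaces do; for every `N` they do for the closed subschemes of the affine space of
dimension `N` if and only if they do for the hypersurfaces with at most `N + 1` variables in one block.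
(3) The same is true for the assertions of Q1 and Q2 together, for all families `A m k X` with the
properties `IsHigherChow A`. -/
theorem result :
    (∀ (a b c : ℕ) (T : Fin a → Fin b → Fin c → ℤ), Smooth (cubic T).hom) ∧
    ((ForAllSchemes Continues ↔ ForSparseCubics Continues) ∧
      ∀ N : ℕ, (ForClosedSubschemes N Continues ↔ ForNarrowCubics (N + 1) Continues)) ∧
    ∀ A : ℤ → ℤ → Sch ℤ → ModuleCat.{w} ℚ, IsHigherChow A →
      (ForAllSchemes (BlochSoule A) ↔ ForSparseCubics (BlochSoule A)) ∧
      ∀ N : ℕ, (ForClosedSubschemes N (BlochSoule A) ↔ ForNarrowCubics (N + 1) (BlochSoule A)) := by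
  have h1 : ForAllSchemes Continues ↔ ForSparseCubics Continues := by
    constructor
    · intro h a b c H _
      exact h _ (ft_aff False).locallyOfFiniteType (ft_aff False).quasiCompact
    · intro h X hX1 hX2
      exact of_sparse Pool.Agent.Q193.Zeta.bnd_co h X ⟨hX1, hX2, fun h => h.elim⟩
  refine ⟨fun a b c T => smooth_aff_int (hyp_smooth T), ⟨h1, fun N => ?_⟩, fun A hA => ⟨?_, ?_⟩⟩
  · exact closed_iff_narrow Pool.Agent.Q193.Zeta.bnd_co N
  · constructor
    · intro h a b c H _
      exact h _ (ft_aff False).locallyOfFiniteType (ft_aff False).quasiCompact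
    · intro h X hX1 hX2
      exact of_sparse (bnd_formula hA (point_sparse (clo_formula hA.toIsChow) h)) h X
        ⟨hX1, hX2, fun h => h.elim⟩
  · intro N
    constructor
    · intro h
      exact (closed_iff_narrow (bnd_formula hA (point_closed (clo_formula hA.toIsChow) h)) N).mp h
    · intro h
      refine (closed_iff_narrow (bnd_formula hA ?_) N).mpr h
      exact point_hyp (clo_formula hA.toIsChow) (h 1 1 1 _ (Or.inl (by omega)))

end Pool.Agent.Results.MP_666bea_ag.SmoothCubicHypersurfaces
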